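import Pool.Agent.Run7.h568.DG.Iface

/-!
# Project DG (helper568), piece S_inv
-/

open Real Matrix Filter Topology

noncomputable section

namespace Run7.h300.DG

open Run7.h568.DG

variable {D : Type} [Fintype D] [DecidableEq D] {T : Tri D}

theorem Pd_zero (t : TD T) (x : D → ℝ) (d : D) : t.Pd x d 0 = 1 := by
  simp [TD.Pd]

theorem Pd_succ (t : TD T) (x : D → ℝ) (d : D) (n : ℕ) :
    t.Pd x d (n + 1) = t.Pd x d n * t.str x (d, n) ^ t.m (d, n) := by
  simp [TD.Pd, List.range_succ]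

theorem neg_Pd (t : TD T) (x y : D → ℝ) (d : D) (g : SL)
    (h : ∀ i, i < T.num t.c d →
      t.str y (d, i) = g⁻¹ * t.Pd x d i * t.str x (d, i) * (t.Pd x d i)⁻¹ * g) :
    ∀ n, n ≤ T.num t.c d → t.neg.Pd y d n = g⁻¹ * (t.Pd x d n)⁻¹ * g := by
  intro n
  induction n with
  | zero =>
    intro _
    rw [Pd_zero, Pd_zero]
    group
  | succ n ih =>
    intro hn
    rw [Pd_succ t.neg, ih (by omega), Pd_succ t x]
    have h1 : t.neg.str y (d, n) = t.str y (d, n) := rfl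
    have h2 : t.neg.m (d, n) = - t.m (d, n) := rfl
    have h3 : t.str y (d, n) =
        (g⁻¹ * t.Pd x d n) * t.str x (d, n) * (g⁻¹ * t.Pd x d n)⁻¹ := by
      rw [h n (by omega)]
      group
    rw [h1, h2, h3, conj_zpow]
    group

theorem inv (hg : S_gauge) (hl : S_loop) : S_inv := by
  intro D _ _ T t x hx
  obtain ⟨g, hgg⟩ := hg T t x hx
  have hloop := hl T t x hx g (fun d => ⟨(hgg d).1, (hgg d).2.1⟩)
  have hLam : ∀ d, t.neg.Lam (t.tw x) d = - t.Lam x d := by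
    intro d
    have h1 : t.neg.H (t.tw x) d = (g d)⁻¹ * (t.H x d)⁻¹ * g d :=
      neg_Pd t x (t.tw x) d (g d) (hloop d) _ le_rfl
    unfold TD.Lam
    rw [h1, (hgg d).2.2, Real.log_inv]
  funext d
  have e : ∀ (s : TD T) (y : D → ℝ), s.tw y d = y d + s.Lam y (T.sg d) - s.Lam y (T.sg (T.sg d)) +
      s.Lam y (T.sg (T.io d)) - s.Lam y (T.sg (T.sg (T.io d))) := fun s y => rfl
  rw [e t.neg, hLam, hLam, hLam, hLam, e t x]
  ring

end Run7.h300.DG
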